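import Pool.Agent.Q137.LR.Lin

/-!
# Weightings of graphs without `K_{s,t}`
-/

set_option autoImplicit false

namespace Pool.Agent.Q137.LR

open Finset Matrix SimpleGraph

/-- `x ^ s ≤ 2 ^ s s! (x choose s) + (2 s) ^ s` -/
theorem pow_le_choose (x s : ℕ) : x ^ s ≤ 2 ^ s * (s.factorial * x.choose s) + (2 * s) ^ s := by
  rcases Nat.lt_or_ge x (2 * s) with h | h
  · exact (Nat.pow_le_pow_left h.le s).trans (Nat.le_add_left _ _)
  · have h1 : (x + 1 - s) ^ s ≤ x.descFactorial s := Nat.pow_sub_le_descFactorial x s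
    rw [Nat.descFactorial_eq_factorial_mul_choose] at h1
    have h2 : x ≤ 2 * (x + 1 - s) := by omega
    calc x ^ s ≤ (2 * (x + 1 - s)) ^ s := Nat.pow_le_pow_left h2 s
      _ = 2 ^ s * (x + 1 - s) ^ s := mul_pow _ _ _
      _ ≤ 2 ^ s * (s.factorial * x.choose s) := Nat.mul_le_mul_left _ h1
      _ ≤ _ := Nat.le_add_right _ _

section

variable {V : Type} [Fintype V] [DecidableEq V] (G : SimpleGraph V) [DecidableRel G.Adj]

/-- The number of common neighbours. -/
def codeg (v w : V) : ℕ := (G.neighborFinset v ∩ G.neighborFinset w).card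

/-- The common neighbours of a set. -/
def comm (S : Finset V) : Finset V := univ.filter fun v => S ⊆ G.neighborFinset v

theorem comm_card_lt {s t : ℕ} (hs : 1 ≤ s)
    (hG : (completeBipartiteGraph (Fin s) (Fin t)).Free G) {S : Finset V} (hS : S.card = s) :
    (comm G S).card < t := by
  by_contra hcon
  push Not at hcon
  apply hG
  obtain ⟨T, hT, hTc⟩ := Finset.exists_subset_card_eq hcon
  set e : Fin s ≃ S := (Finset.equivFinOfCardEq hS).symm
  set f : Fin t ≃ T := (Finset.equivFinOfCardEq hTc).symm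
  have hadj : ∀ i j, G.Adj (e i : V) (f j : V) := by
    intro i j
    have h1 : (f j : V) ∈ comm G S := hT (f j).2
    have h2 := (Finset.mem_filter.1 h1).2 (e i).2
    rw [mem_neighborFinset] at h2
    exact h2.symm
  refine ⟨⟨⟨Sum.elim (fun i => (e i : V)) (fun j => (f j : V)), ?_⟩, ?_⟩⟩
  · intro a b hab
    rcases a with a | a <;> rcases b with b | b
    · simp [completeBipartiteGraph] at hab
    · exact hadj a b
    · exact (hadj b a).symm
    · simp [completeBipartiteGraph] at hab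
  · intro a b hab
    rcases a with a | a <;> rcases b with b | b
    · have : (e a : V) = e b := hab
      rw [e.injective (Subtype.ext this)]
    · have h : (e a : V) = f b := hab
      exact absurd h (hadj a b).ne
    · have h : (f a : V) = e b := hab
      exact absurd h.symm (hadj b a).ne
    · have : (f a : V) = f b := hab
      rw [f.injective (Subtype.ext this)]

/-- Double counting. -/
theorem sum_choose (s : ℕ) : ∑ v, ∑ w, (codeg G v w).choose s =
    ∑ S ∈ powersetCard s (univ : Finset V), (comm G S).card ^ 2 := by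
  have h1 : ∀ v w, (codeg G v w).choose s = ∑ S ∈ powersetCard s (univ : Finset V),
      if S ⊆ G.neighborFinset v ∧ S ⊆ G.neighborFinset w then 1 else 0 := by
    intro v w
    rw [← Finset.card_filter, codeg, ← Finset.card_powersetCard]
    congr 1
    ext S
    simp only [mem_powersetCard, mem_filter, subset_univ, true_and, subset_inter_iff]
    tauto
  simp only [h1]
  rw [Finset.sum_congr rfl fun v _ => Finset.sum_comm]
  rw [Finset.sum_comm]
  refine Finset.sum_congr rfl fun S _ => ?_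
  rw [sq, comm, Finset.card_filter, Finset.sum_mul_sum]
  refine Finset.sum_congr rfl fun v _ => Finset.sum_congr rfl fun w _ => ?_
  by_cases hv : S ⊆ G.neighborFinset v <;> by_cases hw : S ⊆ G.neighborFinset w <;> simp [hv, hw]

theorem sum_choose_le {s t : ℕ} (hs : 1 ≤ s)
    (hG : (completeBipartiteGraph (Fin s) (Fin t)).Free G) :
    ∑ v, ∑ w, (codeg G v w).choose s ≤ (Fintype.card V).choose s * t ^ 2 := by
  rw [sum_choose]
  calc ∑ S ∈ powersetCard s (univ : Finset V), (comm G S).card ^ 2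
      ≤ ∑ _S ∈ powersetCard s (univ : Finset V), t ^ 2 := by
        refine Finset.sum_le_sum fun S hS => ?_
        exact Nat.pow_le_pow_left (comm_card_lt G hs hG (mem_powersetCard.1 hS).2).le 2
    _ = _ := by rw [Finset.sum_const, Finset.card_powersetCard, smul_eq_mul, card_univ]

theorem sum_pow_le {s t : ℕ} (hs : 2 ≤ s)
    (hG : (completeBipartiteGraph (Fin s) (Fin t)).Free G) :
    ∑ v, ∑ w, (codeg G v w) ^ s ≤ (2 ^ s * t ^ 2 + (2 * s) ^ s) * (Fintype.card V) ^ s := by
  set n := Fintype.card V with hn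
  have h1 : ∑ v, ∑ w, (codeg G v w) ^ s ≤
      ∑ v : V, ∑ w : V, (2 ^ s * (s.factorial * (codeg G v w).choose s) + (2 * s) ^ s) :=
    Finset.sum_le_sum fun v _ => Finset.sum_le_sum fun w _ => pow_le_choose _ _
  have h2 : ∑ v : V, ∑ w : V, (2 ^ s * (s.factorial * (codeg G v w).choose s) + (2 * s) ^ s) =
      2 ^ s * (s.factorial * ∑ v, ∑ w, (codeg G v w).choose s) + n ^ 2 * (2 * s) ^ s := by
    simp only [Finset.sum_add_distrib, ← Finset.mul_sum]
    simp only [Finset.sum_const, card_univ, smul_eq_mul, ← hn]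
    ring
  have h3 := sum_choose_le G (by omega : 1 ≤ s) hG
  have h4 : s.factorial * n.choose s ≤ n ^ s := by
    rw [← Nat.descFactorial_eq_factorial_mul_choose]
    exact Nat.descFactorial_le_pow n s
  have h5 : n ^ 2 ≤ n ^ s := by
    rcases Nat.eq_zero_or_pos n with h0 | h0
    · rw [h0]; simp
    · exact Nat.pow_le_pow_right h0 hs
  calc ∑ v, ∑ w, (codeg G v w) ^ s
      ≤ 2 ^ s * (s.factorial * ∑ v, ∑ w, (codeg G v w).choose s) + n ^ 2 * (2 * s) ^ s := by
        rw [← h2]; exact h1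
    _ ≤ 2 ^ s * (s.factorial * (n.choose s * t ^ 2)) + n ^ s * (2 * s) ^ s := by
        gcongr
    _ = 2 ^ s * t ^ 2 * (s.factorial * n.choose s) + n ^ s * (2 * s) ^ s := by ring
    _ ≤ 2 ^ s * t ^ 2 * n ^ s + n ^ s * (2 * s) ^ s := by gcongr
    _ = _ := by ring

/-- The constant. -/
noncomputable def KK (s t : ℕ) : ℝ := (2 ^ s * (t : ℝ) ^ 2 + (2 * (s : ℝ)) ^ s)

theorem KK_pos (s t : ℕ) (hs : 2 ≤ s) : 0 < KK s t := by
  have : (0 : ℝ) < s := by exact_mod_cast (by omega : 0 < s)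
  unfold KK
  positivity

/-- The number of closed walks of length four. -/
theorem four_walks {s t : ℕ} (hs : 2 ≤ s)
    (hG : (completeBipartiteGraph (Fin s) (Fin t)).Free G) :
    ∑ v, ∑ w, (codeg G v w : ℝ) ^ 2 ≤
      KK s t ^ (2 / (s : ℝ)) * (Fintype.card V : ℝ) ^ (4 - 4 / (s : ℝ)) := by
  set n := Fintype.card V with hn
  have hs0 : (0 : ℝ) < s := by exact_mod_cast (by omega : 0 < s)
  have hs2 : (2 : ℝ) ≤ s := by exact_mod_cast hs
  have h1 : ∑ v, ∑ w, (codeg G v w : ℝ) ^ s ≤ KK s t * (n : ℝ) ^ s := by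
    have := sum_pow_le G hs hG
    unfold KK
    exact_mod_cast this
  rcases Nat.eq_zero_or_pos n with h0 | h0
  · have hE : IsEmpty V := Fintype.card_eq_zero_iff.1 (hn ▸ h0)
    simp only [Finset.univ_eq_empty, Finset.sum_empty]
    have := KK_pos s t hs
    positivity
  have hn0 : (0 : ℝ) < n := by exact_mod_cast h0
  set W := ∑ v, ∑ w, (codeg G v w : ℝ) ^ 2 with hW
  have hW0 : 0 ≤ W := Finset.sum_nonneg fun _ _ => Finset.sum_nonneg fun _ _ => sq_nonneg _
  have hp : (1 : ℝ) ≤ (s : ℝ) / 2 := by linarith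
  have h2 := Real.rpow_sum_le_const_mul_sum_rpow (univ : Finset (V × V))
    (fun p => (codeg G p.1 p.2 : ℝ) ^ 2) hp
  have h3 : ∑ p : V × V, |(codeg G p.1 p.2 : ℝ) ^ 2| = W := by
    rw [hW, Fintype.sum_prod_type]
    refine Finset.sum_congr rfl fun v _ => Finset.sum_congr rfl fun w _ => ?_
    rw [abs_of_nonneg (sq_nonneg _)]
  have h4 : ∑ p : V × V, |(codeg G p.1 p.2 : ℝ) ^ 2| ^ ((s : ℝ) / 2) =
      ∑ v, ∑ w, (codeg G v w : ℝ) ^ s := by
    rw [Fintype.sum_prod_type]
    refine Finset.sum_congr rfl fun v _ => Finset.sum_congr rfl fun w _ => ?_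
    rw [abs_of_nonneg (sq_nonneg _), ← Real.rpow_natCast _ 2, ← Real.rpow_mul (Nat.cast_nonneg _)]
    rw [← Real.rpow_natCast _ s]
    congr 1
    push_cast
    ring
  rw [h3, h4] at h2
  have h5 : ((univ : Finset (V × V)).card : ℝ) = (n : ℝ) ^ (2 : ℝ) := by
    rw [card_univ, Fintype.card_prod, ← hn, Real.rpow_two]
    push_cast
    ring
  rw [h5, ← Real.rpow_mul hn0.le] at h2
  have h6 : W ^ ((s : ℝ) / 2) ≤ KK s t * (n : ℝ) ^ (2 * (s : ℝ) - 2) := by
    calc W ^ ((s : ℝ) / 2) ≤ (n : ℝ) ^ (2 * ((s : ℝ) / 2 - 1)) * ∑ v, ∑ w, (codeg G v w : ℝ) ^ s := h2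
      _ ≤ (n : ℝ) ^ (2 * ((s : ℝ) / 2 - 1)) * (KK s t * (n : ℝ) ^ s) := by gcongr
      _ = KK s t * ((n : ℝ) ^ (2 * ((s : ℝ) / 2 - 1)) * (n : ℝ) ^ (s : ℝ)) := by
          rw [Real.rpow_natCast]; ring
      _ = KK s t * (n : ℝ) ^ (2 * (s : ℝ) - 2) := by
          rw [← Real.rpow_add hn0]; congr 2; ring
  have h7 : W = (W ^ ((s : ℝ) / 2)) ^ (2 / (s : ℝ)) := by
    rw [← Real.rpow_mul hW0]
    have : (s : ℝ) / 2 * (2 / (s : ℝ)) = 1 := by field_simp
    rw [this, Real.rpow_one]
  rw [h7]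
  have hK := KK_pos s t hs
  calc (W ^ ((s : ℝ) / 2)) ^ (2 / (s : ℝ))
      ≤ (KK s t * (n : ℝ) ^ (2 * (s : ℝ) - 2)) ^ (2 / (s : ℝ)) :=
        Real.rpow_le_rpow (Real.rpow_nonneg hW0 _) h6 (by positivity)
    _ = KK s t ^ (2 / (s : ℝ)) * (n : ℝ) ^ (4 - 4 / (s : ℝ)) := by
        rw [Real.mul_rpow hK.le (by positivity), ← Real.rpow_mul hn0.le]
        congr 2
        field_simp
        ring

end

variable {V : Type} [Fintype V]

/-- `M` vanishes outside of the edges of `G`, its entries are at most `θ` in absolute value. -/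
def Weighting (G : SimpleGraph V) (θ : ℝ) (M : Matrix V V ℝ) : Prop :=
  ∀ i j, |M i j| ≤ θ ∧ (¬ G.Adj i j → M i j = 0)

theorem Weighting.transpose {G : SimpleGraph V} {θ : ℝ} {M : Matrix V V ℝ} (h : Weighting G θ M) :
    Weighting G θ Mᵀ := fun i j => ⟨(h j i).1, fun hij => (h j i).2 fun e => hij e.symm⟩

/-- The norm of the Gram matrix. -/
theorem gram_bound {s t : ℕ} (hs : 2 ≤ s) (G : SimpleGraph V)
    (hG : (completeBipartiteGraph (Fin s) (Fin t)).Free G) {θ : ℝ} {M : Matrix V V ℝ}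
    (hM : Weighting G θ M) :
    normSq (gram M) ≤ θ ^ 4 * (KK s t ^ (2 / (s : ℝ)) *
      (Fintype.card V : ℝ) ^ (4 - 4 / (s : ℝ))) := by
  classical
  have h1 : ∀ b c, |gram M b c| ≤ θ ^ 2 * codeg G b c := by
    intro b c
    unfold gram
    have h2 : ∑ a, M a b * M a c =
        ∑ a ∈ G.neighborFinset b ∩ G.neighborFinset c, M a b * M a c := by
      symm
      refine Finset.sum_subset (Finset.subset_univ _) fun a _ ha => ?_
      rw [mem_inter, not_and_or, mem_neighborFinset, mem_neighborFinset] at ha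
      rcases ha with ha | ha
      · rw [(hM a b).2 fun e => ha e.symm, zero_mul]
      · rw [(hM a c).2 fun e => ha e.symm, mul_zero]
    rw [h2]
    calc |∑ a ∈ G.neighborFinset b ∩ G.neighborFinset c, M a b * M a c|
        ≤ ∑ a ∈ G.neighborFinset b ∩ G.neighborFinset c, |M a b * M a c| :=
          Finset.abs_sum_le_sum_abs _ _
      _ ≤ ∑ _a ∈ G.neighborFinset b ∩ G.neighborFinset c, θ ^ 2 := by
          refine Finset.sum_le_sum fun a _ => ?_
          rw [abs_mul, sq]
          exact mul_le_mul (hM a b).1 (hM a c).1 (abs_nonneg _) ((abs_nonneg _).trans (hM a b).1)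
      _ = θ ^ 2 * codeg G b c := by
          rw [Finset.sum_const, nsmul_eq_mul, mul_comm]; rfl
  calc normSq (gram M) ≤ ∑ b, ∑ c, θ ^ 4 * (codeg G b c : ℝ) ^ 2 := by
        refine Finset.sum_le_sum fun b _ => Finset.sum_le_sum fun c _ => ?_
        calc gram M b c ^ 2 = |gram M b c| ^ 2 := (sq_abs _).symm
          _ ≤ (θ ^ 2 * codeg G b c) ^ 2 := pow_le_pow_left₀ (abs_nonneg _) (h1 b c) 2
          _ = _ := by ring
    _ = θ ^ 4 * ∑ b, ∑ c, (codeg G b c : ℝ) ^ 2 := by simp only [← Finset.mul_sum]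
    _ ≤ _ := by
        have := four_walks G hs hG
        gcongr

/-- The number of edges and a weighting. -/
theorem edges_le {G : SimpleGraph V} {M : Matrix V V ℝ} (h : ∀ i j, G.Adj i j → 1 ≤ |M i j|) :
    2 * (G.edgeSet.ncard : ℝ) ≤ normSq M := by
  classical
  have h1 : 2 * G.edgeSet.ncard = ∑ v, G.degree v := by
    rw [G.sum_degrees_eq_twice_card_edges, ← Set.ncard_coe_finset, coe_edgeFinset]
  have h2 : (2 * (G.edgeSet.ncard : ℝ)) = ∑ v, (G.degree v : ℝ) := by exact_mod_cast h1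
  rw [h2]
  refine Finset.sum_le_sum fun v _ => ?_
  calc (G.degree v : ℝ) = ∑ _w ∈ G.neighborFinset v, (1 : ℝ) := by
        rw [Finset.sum_const, nsmul_eq_mul, mul_one, card_neighborFinset_eq_degree]
    _ ≤ ∑ w ∈ G.neighborFinset v, M v w ^ 2 := by
        refine Finset.sum_le_sum fun w hw => ?_
        rw [mem_neighborFinset] at hw
        have := h v w hw
        rw [← sq_abs]
        nlinarith
    _ ≤ ∑ w, M v w ^ 2 :=
        Finset.sum_le_sum_of_subset_of_nonneg (Finset.subset_univ _) fun _ _ _ => sq_nonneg _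

end Pool.Agent.Q137.LR
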