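import Mathlib

/-!
# Orthonormal families and the fourth moment of the singular values
-/

set_option autoImplicit false

namespace Pool.Agent.Q137.LR

open Finset Matrix

variable {V : Type} [Fintype V]

/-- The sum of the squares of the entries. -/
def normSq (M : Matrix V V ℝ) : ℝ := ∑ i, ∑ j, M i j ^ 2

/-- An orthonormal basis of a subspace of `ℝ^V`. -/
theorem exists_onb (S : Submodule ℝ (V → ℝ)) : ∃ u : Fin (Module.finrank ℝ S) → V → ℝ,
    (∀ i k, ∑ b, u i b * u k b = if i = k then 1 else 0) ∧ (∀ i, u i ∈ S) ∧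
    ∀ x ∈ S, ∃ c : Fin (Module.finrank ℝ S) → ℝ, x = ∑ i, c i • u i := by
  classical
  set e := (WithLp.linearEquiv 2 ℝ (V → ℝ)).symm with he
  set S' : Submodule ℝ (EuclideanSpace ℝ V) := S.map (e : (V → ℝ) →ₗ[ℝ] EuclideanSpace ℝ V)
    with hS'
  have hfin : Module.finrank ℝ S' = Module.finrank ℝ S := LinearEquiv.finrank_map_eq e S
  set b := stdOrthonormalBasis ℝ S' with hb
  have hmem : ∀ i, ((b i : EuclideanSpace ℝ V)).ofLp ∈ S := by
    intro i
    obtain ⟨x, hx, hxe⟩ := Submodule.mem_map.1 (b i).2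
    have : ((b i : EuclideanSpace ℝ V)).ofLp = x := by
      rw [← hxe]; rfl
    rw [this]; exact hx
  refine ⟨fun i => ((b (Fin.cast hfin.symm i) : EuclideanSpace ℝ V)).ofLp, ?_, fun i => hmem _, ?_⟩
  · intro i k
    have h := orthonormal_iff_ite.1 b.orthonormal (Fin.cast hfin.symm i) (Fin.cast hfin.symm k)
    rw [Submodule.coe_inner, PiLp.inner_apply] at h
    simp only [RCLike.inner_apply, conj_trivial] at h
    have h2 : (Fin.cast hfin.symm i = Fin.cast hfin.symm k) ↔ i = k := by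
      simp
    simp only [h2] at h
    rw [← h]
    refine Finset.sum_congr rfl fun x _ => ?_
    ring
  · intro x hx
    have hx' : e x ∈ S' := Submodule.mem_map.2 ⟨x, hx, rfl⟩
    refine ⟨fun i => b.repr ⟨e x, hx'⟩ (Fin.cast hfin.symm i), ?_⟩
    have h := b.sum_repr ⟨e x, hx'⟩
    have h2 : (e x : EuclideanSpace ℝ V) =
        ∑ i, (b.repr ⟨e x, hx'⟩ i) • ((b i : S') : EuclideanSpace ℝ V) := by
      have h5 := congrArg S'.subtype h
      rw [map_sum] at h5
      simp only [map_smul, Submodule.subtype_apply] at h5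
      exact h5.symm
    have h3 : x = ∑ i, (b.repr ⟨e x, hx'⟩ i) • ((b i : EuclideanSpace ℝ V)).ofLp := by
      have h4 := congrArg (fun y : EuclideanSpace ℝ V => y.ofLp) h2
      simp only [WithLp.ofLp_sum, WithLp.ofLp_smul] at h4
      exact h4
    calc x = ∑ i, (b.repr ⟨e x, hx'⟩ i) • ((b i : EuclideanSpace ℝ V)).ofLp := h3
      _ = _ := by
        refine (Fintype.sum_equiv (finCongr hfin.symm) _ _ fun i => ?_).symm
        rfl

/-- The matrix `Bᵀ B`, written out. -/
def gram (B : Matrix V V ℝ) : Matrix V V ℝ := fun b c => ∑ a, B a b * B a c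

/-- **Ky Fan type inequality**: for an orthonormal family the sum of the squares of the lengths of the
images is at most the square root of the number of members times the norm of `Bᵀ B`. -/
theorem fan {m : ℕ} (u : Fin m → V → ℝ) (hu : ∀ i k, ∑ b, u i b * u k b = if i = k then 1 else 0)
    (B : Matrix V V ℝ) :
    ∑ i, ∑ a, (∑ b, B a b * u i b) ^ 2 ≤ √m * √(normSq (gram B)) := by
  have h1 : ∑ i, ∑ a, (∑ b, B a b * u i b) ^ 2 =
      ∑ p : V × V, (∑ i, u i p.1 * u i p.2) * gram B p.1 p.2 := by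
    rw [Fintype.sum_prod_type]
    simp only [gram, Finset.sum_mul_sum, sq]
    have e1 : ∀ i : Fin m, ∑ a, ∑ b, ∑ c, B a b * u i b * (B a c * u i c) =
        ∑ b, ∑ c, ∑ a, u i b * u i c * (B a b * B a c) := by
      intro i
      rw [Finset.sum_comm]
      refine Finset.sum_congr rfl fun b _ => ?_
      rw [Finset.sum_comm]
      refine Finset.sum_congr rfl fun c _ => ?_
      refine Finset.sum_congr rfl fun a _ => ?_
      ring
    rw [Finset.sum_congr rfl fun i _ => e1 i]
    rw [Finset.sum_comm]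
    refine Finset.sum_congr rfl fun b _ => ?_
    rw [Finset.sum_comm]
  have h2 : ∑ p : V × V, (∑ i, u i p.1 * u i p.2) ^ 2 = m := by
    rw [Fintype.sum_prod_type]
    have e2 : ∀ b c : V, (∑ i, u i b * u i c) ^ 2 =
        ∑ i, ∑ k, (u i b * u k b) * (u i c * u k c) := by
      intro b c
      rw [sq, Finset.sum_mul_sum]
      refine Finset.sum_congr rfl fun i _ => Finset.sum_congr rfl fun k _ => ?_
      ring
    simp only [e2]
    have e3 : ∑ b, ∑ c, ∑ i, ∑ k, (u i b * u k b) * (u i c * u k c) =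
        ∑ i, ∑ k, (∑ b, u i b * u k b) * (∑ c, u i c * u k c) := by
      simp only [Finset.sum_mul_sum]
      rw [Finset.sum_comm' (s := univ) (t := fun _ => univ) (t' := univ) (s' := fun _ => univ)
        (by simp)]
      rw [Finset.sum_congr rfl fun c _ => Finset.sum_comm]
      rw [Finset.sum_comm]
      refine Finset.sum_congr rfl fun i _ => ?_
      rw [Finset.sum_congr rfl fun c _ => Finset.sum_comm]
      rw [Finset.sum_comm]
      refine Finset.sum_congr rfl fun k _ => ?_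
      rw [Finset.sum_comm]
    rw [e3]
    simp only [hu]
    simp
  have h3 : ∑ p : V × V, gram B p.1 p.2 ^ 2 = normSq (gram B) := by
    rw [Fintype.sum_prod_type]; rfl
  rw [h1, ← h2, ← h3]
  exact Real.sum_mul_le_sqrt_mul_sqrt _ _ _

/-- Approximation by a matrix whose columns are combinations of the `u i`. -/
theorem approx {m : ℕ} (u : Fin m → V → ℝ) (hu : ∀ i k, ∑ b, u i b * u k b = if i = k then 1 else 0)
    (M L : Matrix V V ℝ) (hL : ∀ j, ∃ c : Fin m → ℝ, (fun b => L b j) = ∑ i, c i • u i) :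
    normSq M - ∑ i, ∑ j, (∑ b, M b j * u i b) ^ 2 ≤ normSq (M - L) := by
  have h1 : normSq M = ∑ j, ∑ b, M b j ^ 2 := by
    unfold normSq; rw [Finset.sum_comm]
  have h2 : normSq (M - L) = ∑ j, ∑ b, (M b j - L b j) ^ 2 := by
    unfold normSq; rw [Finset.sum_comm]; rfl
  have h0 : ∑ i, ∑ j, (∑ b, M b j * u i b) ^ 2 = ∑ j, ∑ i, (∑ b, M b j * u i b) ^ 2 :=
    Finset.sum_comm
  rw [h1, h2, h0, ← Finset.sum_sub_distrib]
  refine Finset.sum_le_sum fun j _ => ?_
  obtain ⟨c, hc⟩ := hL j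
  have hc' : ∀ b, L b j = ∑ i, c i * u i b := by
    intro b
    have := congrFun hc b
    simpa [Finset.sum_apply] using this
  have h3 : ∑ b, L b j ^ 2 = ∑ i, c i ^ 2 := by
    simp only [hc']
    have e : ∀ b, (∑ i, c i * u i b) ^ 2 = ∑ i, ∑ k, c i * c k * (u i b * u k b) := by
      intro b
      rw [sq, Finset.sum_mul_sum]
      refine Finset.sum_congr rfl fun i _ => Finset.sum_congr rfl fun k _ => ?_
      ring
    simp only [e]
    rw [Finset.sum_comm]
    refine Finset.sum_congr rfl fun i _ => ?_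
    rw [Finset.sum_comm]
    simp only [← Finset.mul_sum, hu]
    simp [sq]
  have h4 : ∑ b, M b j * L b j = ∑ i, c i * ∑ b, M b j * u i b := by
    simp only [hc', Finset.mul_sum]
    rw [Finset.sum_comm]
    refine Finset.sum_congr rfl fun i _ => Finset.sum_congr rfl fun b _ => ?_
    ring
  have h5 : ∑ b, (M b j - L b j) ^ 2 =
      ∑ b, M b j ^ 2 - 2 * ∑ b, M b j * L b j + ∑ b, L b j ^ 2 := by
    rw [Finset.mul_sum, ← Finset.sum_sub_distrib, ← Finset.sum_add_distrib]
    refine Finset.sum_congr rfl fun b _ => ?_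
    ring
  rw [h5, h3, h4]
  have h6 : 0 ≤ ∑ i, (c i - ∑ b, M b j * u i b) ^ 2 := Finset.sum_nonneg fun i _ => sq_nonneg _
  have h7 : ∑ i, (c i - ∑ b, M b j * u i b) ^ 2 =
      ∑ i, c i ^ 2 - 2 * ∑ i, c i * (∑ b, M b j * u i b) + ∑ i, (∑ b, M b j * u i b) ^ 2 := by
    rw [Finset.mul_sum, ← Finset.sum_sub_distrib, ← Finset.sum_add_distrib]
    refine Finset.sum_congr rfl fun i _ => ?_
    ring
  linarith

/-- Approximation by matrices of given rank. -/
theorem rank_approx (M L : Matrix V V ℝ) :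
    normSq M ≤ normSq (M - L) + √(L.rank) * √(normSq (gram Mᵀ)) := by
  classical
  obtain ⟨u, hu, -, hspan⟩ := exists_onb (LinearMap.range L.mulVecLin)
  have h1 := approx u hu M L (by
    intro j
    refine hspan _ ⟨Pi.single j 1, ?_⟩
    ext b
    simp [Matrix.mulVecLin_apply, Matrix.mulVec_single])
  have h2 := fan u hu Mᵀ
  have h3 : (Module.finrank ℝ (LinearMap.range L.mulVecLin) : ℝ) = L.rank := rfl
  rw [h3] at h2
  have h4 : ∑ i, ∑ a, (∑ b, Mᵀ a b * u i b) ^ 2 = ∑ i, ∑ j, (∑ b, M b j * u i b) ^ 2 := rfl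
  rw [h4] at h2
  linarith

/-- Subspaces on which `M` does not decrease lengths too much. -/
theorem subspace_bound (M : Matrix V V ℝ) (U : Submodule ℝ (V → ℝ)) (τ : ℝ) (hτ : 0 ≤ τ)
    (h : ∀ x ∈ U, τ ^ 2 * ∑ b, x b ^ 2 ≤ ∑ a, (M *ᵥ x) a ^ 2) :
    τ ^ 4 * Module.finrank ℝ U ≤ normSq (gram M) := by
  obtain ⟨m, hm⟩ : ∃ m, m = Module.finrank ℝ U := ⟨_, rfl⟩
  have hex := exists_onb U
  rw [← hm] at hex ⊢
  obtain ⟨u, hu, hU, -⟩ := hex
  have h2 := fan u hu M
  have hN : 0 ≤ normSq (gram M) := Finset.sum_nonneg fun _ _ => Finset.sum_nonneg fun _ _ => sq_nonneg _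
  have h3 : τ ^ 2 * m ≤ ∑ i, ∑ a, (∑ b, M a b * u i b) ^ 2 := by
    have : ∀ i : Fin m, τ ^ 2 ≤ ∑ a, (∑ b, M a b * u i b) ^ 2 := by
      intro i
      have g := h (u i) (hU i)
      have g2 : ∑ b, u i b ^ 2 = 1 := by
        have := hu i i
        simp only [if_true] at this
        rw [← this]
        exact Finset.sum_congr rfl fun b _ => sq _
      rw [g2, mul_one] at g
      exact g
    calc τ ^ 2 * m = ∑ _i : Fin m, τ ^ 2 := by simp [mul_comm]
      _ ≤ _ := Finset.sum_le_sum fun i _ => this i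
  have h4 : τ ^ 2 * m ≤ √m * √(normSq (gram M)) := h3.trans h2
  rcases Nat.eq_zero_or_pos m with h0 | h0
  · rw [h0]; simpa using hN
  · have hm0 : (0 : ℝ) < m := by exact_mod_cast h0
    have h5 : (τ ^ 2 * m) ^ 2 ≤ m * normSq (gram M) := by
      calc (τ ^ 2 * m) ^ 2 ≤ (√m * √(normSq (gram M))) ^ 2 :=
            pow_le_pow_left₀ (by positivity) h4 2
        _ = m * normSq (gram M) := by
            rw [mul_pow, Real.sq_sqrt hm0.le, Real.sq_sqrt hN]
    have h6 : m * (τ ^ 4 * m) ≤ m * normSq (gram M) := by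
      calc m * (τ ^ 4 * m) = (τ ^ 2 * m) ^ 2 := by ring
        _ ≤ _ := h5
    exact le_of_mul_le_mul_left h6 hm0

end Pool.Agent.Q137.LR
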